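import Pool.Agent.Helper11.BR.Defs

/-!
# Project BR, block MEAS: interface

Everything is measurable in all variables, without any genericity, if the map `nu` of the structure
`R1` is measurable (`R1.mod` below: outside `gam g ≠ 0` it is replaced by `1`) and if at most two
different boundary points occur among the arguments of `S.F`.  Variables are measurable functions on
an arbitrary measurable space `Z`; lists of variables are lists of measurable functions.
-/

set_option autoImplicit false

open MeasureTheory

namespace Pool.Agent.Helper59.BR

open Pool.Agent.Helper11.BC (dl)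
open Pool.Agent.Helper11.BR

variable {G : Type} [Group G] [TopologicalSpace G]

open Classical in
/-- the same data with `nu g = 1` if `gam g = 0` (then `nu` is measurable) -/
noncomputable def mod (Γ : R1 G) : R1 G :=
  { Γ with
    nu := fun g => if Γ.gam g = 0 then 1 else Γ.nu g
    nu_mem := fun g => by
      by_cases h : Γ.gam g = 0
      · rw [if_pos h]
        exact Γ.U.one_mem
      · rw [if_neg h]
        exact Γ.nu_mem g
    nu_end := fun g h => by
      rw [if_neg h]
      exact Γ.nu_end g h
    nu_cont := by
      refine Γ.nu_cont.congr fun g hg => ?_
      exact if_neg hg }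

/-- the list of points of a pattern: `(true, u)` is the end of `u`, `(false, u)` is the point `u` -/
def pt {Y : Type} (π : List (Bool × (Y → G))) (y : Y) : List (GP G) :=
  π.map fun e => if e.1 then GP.bdp (e.2 y) else GP.int (e.2 y)

variable [MeasurableSpace G]

/-- families of functions on lists of `L` points which are measurable if the points are measurable
and at most `k` different boundary points occur -/
def MF (k L : ℕ) {Z : Type} [MeasurableSpace Z] (φ : Z → List (GP G) → ℝ) : Prop :=
  ∀ (Y : Type) [MeasurableSpace Y] (r : Y → Z) (bs : List (Y → G)) (π : List (Bool × (Y → G))),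
    Measurable r → bs.length ≤ k → π.length = L →
    (∀ e ∈ π, Measurable e.2 ∧ (e.1 = true → e.2 ∈ bs)) →
    Measurable fun y => φ (r y) (pt π y)

variable {Γ : R1 G}

/-- `gt` is measurable -/
def NeckMeas {N : ℕ} {S : Sys Γ N} (K : Neck S) : Prop :=
  ∀ (Z : Type) [MeasurableSpace Z] (n s t : Z → G) (A : Z → Finset G) (C : List (Z → G)),
    Measurable n → Measurable s → Measurable t → C.length + 1 = N →
    (∀ c ∈ C, Measurable c ∧ MeasurableSet {z | c z ∈ A z}) →
    Measurable fun z => K.gt (n z) (A z) (C.map fun c => c z) (s z) (t z)

/-- the data of the block GLOB are measurable -/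
structure GlobMeas (g : GlobGeo Γ) : Prop where
  prj : ∀ (Z : Type) [MeasurableSpace Z] (α β : Z → ℝ) (n h : Z → G), Measurable α →
    Measurable β → Measurable n → Measurable h →
    Measurable fun z => g.prj (α z) (β z) (n z) (h z)
  fr : ∀ (Z : Type) [MeasurableSpace Z] (s t : Z → G), Measurable s → Measurable t →
    Measurable fun z => g.fr (s z) (t z)

/-- a function on lists is measurable in every length -/
def ML (ψ : List G → ℝ) : Prop :=
  ∀ (Z : Type) [MeasurableSpace Z] (C : List (Z → G)), (∀ c ∈ C, Measurable c) →
    Measurable fun z => ψ (C.map fun c => c z)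

end Pool.Agent.Helper59.BR
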