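import Pool.Agent.Helper59.BR.MeasSys
import Pool.Agent.Helper14.BN.Final

/-!
# Project BR, block MEAS: measurability of the functions `gt` of the block NECK, `N ≥ 3`
-/

set_option autoImplicit false

open MeasureTheory

namespace Pool.Agent.Helper59.BR

open Pool.Agent.Helper11.BC (dl lmax lmin)
open Pool.Agent.Helper11.BR
open Pool.Agent.Helper14.BC (d2 Sh)
open Pool.Agent.Helper14.BN

/-- the values of a list of variables -/
def ev {G Z : Type} (D : List (Z → G)) (z : Z) : List G := D.map fun c => c z

section Gen

variable {G Z : Type} [MeasurableSpace Z]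

private theorem ev_length (D : List (Z → G)) (z : Z) : (ev D z).length = D.length :=
  List.length_map ..

private theorem ev_erase (D : List (Z → G)) (z : Z) (i : ℕ) :
    (ev D z).eraseIdx i = ev (D.eraseIdx i) z := by
  unfold ev
  rw [List.eraseIdx_map]

private theorem meas_dl (Φ : Z → List G → ℝ) (D : List (Z → G))
    (h : ∀ i < D.length, Measurable fun z => Φ z (ev (D.eraseIdx i) z)) :
    Measurable fun z => dl (Φ z) (ev D z) := by
  have e : (fun z => dl (Φ z) (ev D z)) = fun z =>
      ∑ i ∈ Finset.range D.length, (-1 : ℝ) ^ i • Φ z (ev (D.eraseIdx i) z) := by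
    funext z
    unfold dl
    rw [ev_length]
    exact Finset.sum_congr rfl fun i _ => by rw [ev_erase]
  rw [e]
  exact Finset.measurable_sum _ fun i hi => (h i (Finset.mem_range.1 hi)).const_mul _

private theorem meas_d2 (Φ : Z → List G → List G → ℝ) (A B : List (Z → G))
    (hA : ∀ i < A.length, Measurable fun z => Φ z (ev (A.eraseIdx i) z) (ev B z))
    (hB : ∀ i < B.length, Measurable fun z => Φ z (ev A z) (ev (B.eraseIdx i) z)) :
    Measurable fun z => d2 (Φ z) (ev A z) (ev B z) := by
  unfold d2
  have h1 := meas_dl (fun z A' => Φ z A' (ev B z)) A hA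
  have h2 := meas_dl (fun z B' => Φ z (ev A z) B') B hB
  have e : ∀ z, (-1 : ℝ) ^ (ev A z).length = (-1 : ℝ) ^ A.length := fun z => by rw [ev_length]
  simp only [e]
  exact h1.add (h2.const_mul _)

private theorem meas_lmax (l : List (Z → ℝ)) (h : ∀ c ∈ l, Measurable c) :
    Measurable fun z => lmax (l.map fun c => c z) := by
  induction l with
  | nil => exact measurable_const
  | cons x l ih =>
    cases l with
    | nil => exact h x (by simp)
    | cons y l =>
      exact (h x (by simp)).max (ih fun c hc => h c (List.mem_cons_of_mem _ hc))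

private theorem meas_lmin (l : List (Z → ℝ)) (h : ∀ c ∈ l, Measurable c) :
    Measurable fun z => lmin (l.map fun c => c z) := by
  induction l with
  | nil => exact measurable_const
  | cons x l ih =>
    cases l with
    | nil => exact h x (by simp)
    | cons y l =>
      exact (h x (by simp)).min (ih fun c hc => h c (List.mem_cons_of_mem _ hc))

end Gen

variable {G : Type} [Group G] [TopologicalSpace G] [IsTopologicalGroup G] [T2Space G]
  [SecondCountableTopology G] [MeasurableSpace G] [BorelSpace G] {Γ : R1 G}
  {Z : Type} [MeasurableSpace Z]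

/-! ### the geometric points -/

private theorem meas_line (hν : Measurable Γ.nu) {a b : Z → G} (ha : Measurable a)
    (hb : Measurable b) : Measurable fun z => Γ.line (a z) (b z) :=
  ha.mul (hν.comp (ha.inv.mul hb))

private theorem meas_prm {n g : Z → G} (hn : Measurable n) (hg : Measurable g) :
    Measurable fun z => Γ.prm (n z) (g z) := by
  unfold R1.prm
  have h1 : Measurable fun z => Γ.gam ((n z * Γ.flip)⁻¹ * g z) :=
    Γ.gam_cont.measurable.comp ((hn.mul_const _).inv.mul hg)
  have h2 : Measurable fun z => Γ.gam ((n z)⁻¹ * g z) :=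
    Γ.gam_cont.measurable.comp (hn.inv.mul hg)
  exact (Real.measurable_log.comp (h1.div h2)).div_const 2

private theorem meas_max (hν : Measurable Γ.nu) {m : Z → G} (hm : Measurable m)
    (D : List (Z → G)) (hD : ∀ c ∈ D, Measurable c) :
    Measurable fun z => lmax ((ev D z).map (Γ.prm (m z))) := by
  have h := meas_lmax (D.map fun c z => Γ.prm (m z) (c z)) (by
    intro c hc
    obtain ⟨c', hc', rfl⟩ := List.mem_map.1 hc
    exact meas_prm hm (hD c' hc'))
  simp only [List.map_map] at h
  simp only [ev, List.map_map]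
  exact h

private theorem meas_min (hν : Measurable Γ.nu) {m : Z → G} (hm : Measurable m)
    (D : List (Z → G)) (hD : ∀ c ∈ D, Measurable c) :
    Measurable fun z => lmin ((ev D z).map (Γ.prm (m z))) := by
  have h := meas_lmin (D.map fun c z => Γ.prm (m z) (c z)) (by
    intro c hc
    obtain ⟨c', hc', rfl⟩ := List.mem_map.1 hc
    exact meas_prm hm (hD c' hc'))
  simp only [List.map_map] at h
  simp only [ev, List.map_map]
  exact h

private theorem meas_root (hν : Measurable Γ.nu) {n : Z → G} (hn : Measurable n)
    (D : List (Z → G)) (hD : ∀ c ∈ D, Measurable c) :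
    Measurable fun z => Γ.root (n z) (ev D z) := by
  cases D with
  | nil => exact hn
  | cons b D =>
    have hb : Measurable b := hD b (by simp)
    have hl := meas_line hν hn hb
    exact hl.mul (Γ.dg_cont.measurable.comp
      (meas_max hν hl D fun c hc => hD c (List.mem_cons_of_mem _ hc)))

private theorem meas_mid (hν : Measurable Γ.nu) (A B : List (Z → G))
    (hA : ∀ c ∈ A, Measurable c) (hB : ∀ c ∈ B, Measurable c) :
    Measurable fun z => Γ.mid (ev A z) (ev B z) := by
  cases A with
  | nil => exact measurable_const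
  | cons a A =>
    cases B with
    | nil => exact measurable_const
    | cons b B =>
      have hl := meas_line hν (hA a (by simp)) (hB b (by simp))
      exact hl.mul (Γ.dg_cont.measurable.comp
        (((meas_max hν hl B fun c hc => hB c (List.mem_cons_of_mem _ hc)).add
          (meas_min hν hl A fun c hc => hA c (List.mem_cons_of_mem _ hc))).div_const 2))

/-! ### operations on measurable families -/

omit [IsTopologicalGroup G] [T2Space G] [SecondCountableTopology G] [BorelSpace G] in
private theorem MF_int {k L : ℕ} {φ : Z → Fn G} (h : MF k (L + 1) φ) {v : Z → G}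
    (hv : Measurable v) : MF k L fun z => cone (GP.int (v z)) (φ z) := by
  intro Y _ r bs π hr hbs hπ hm
  refine h Y r bs ((false, fun y => v (r y)) :: π) hr hbs (by rw [List.length_cons, hπ]) ?_
  intro e he
  rcases List.mem_cons.1 he with rfl | he
  · exact ⟨hv.comp hr, fun h => absurd h (by simp)⟩
  · exact hm e he

omit [IsTopologicalGroup G] [T2Space G] [SecondCountableTopology G] [BorelSpace G] in
private theorem MF_bdp {k L : ℕ} {φ : Z → Fn G} (h : MF (k + 1) (L + 1) φ) {v : Z → G}
    (hv : Measurable v) : MF k L fun z => cone (GP.bdp (v z)) (φ z) := by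
  intro Y _ r bs π hr hbs hπ hm
  refine h Y r ((fun y => v (r y)) :: bs) ((true, fun y => v (r y)) :: π) hr
    (by rw [List.length_cons]; omega) (by rw [List.length_cons, hπ]) ?_
  intro e he
  rcases List.mem_cons.1 he with rfl | he
  · exact ⟨hv.comp hr, fun _ => by simp⟩
  · exact ⟨(hm e he).1, fun h => List.mem_cons_of_mem _ ((hm e he).2 h)⟩

omit [IsTopologicalGroup G] [T2Space G] [SecondCountableTopology G] [BorelSpace G] in
private theorem MF_snoc {k L : ℕ} {φ : Z → Fn G} (h : MF (k + 1) (L + 1) φ) {v : Z → G}
    (hv : Measurable v) : MF k L fun z l => φ z (l ++ [GP.bdp (v z)]) := by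
  intro Y _ r bs π hr hbs hπ hm
  have h1 := h Y r ((fun y => v (r y)) :: bs) (π ++ [(true, fun y => v (r y))]) hr
    (by rw [List.length_cons]; omega)
    (by rw [List.length_append, List.length_singleton, hπ]) (by
      intro e he
      rcases List.mem_append.1 he with he | he
      · exact ⟨(hm e he).1, fun h => List.mem_cons_of_mem _ ((hm e he).2 h)⟩
      · rw [List.mem_singleton.1 he]
        exact ⟨hv.comp hr, fun _ => by simp⟩)
  have e : ∀ y, pt (π ++ [(true, fun y => v (r y))]) y = pt π y ++ [GP.bdp (v (r y))] := by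
    intro y
    unfold pt
    rw [List.map_append]
    rfl
  simp only [e] at h1
  exact h1

omit [IsTopologicalGroup G] [T2Space G] [SecondCountableTopology G] [BorelSpace G] in
private theorem MF_zero {k : ℕ} {φ : Z → Fn G} (h : MF k 0 φ) : Measurable fun z => φ z [] :=
  h Z id [] [] measurable_id (by simp) rfl (by simp)

omit [IsTopologicalGroup G] [T2Space G] [SecondCountableTopology G] [BorelSpace G] in
private theorem MF_comp {k L : ℕ} {φ : Z → Fn G} (h : MF k L φ) {Y : Type} [MeasurableSpace Y]
    {r : Y → Z} (hr : Measurable r) : MF k L fun y => φ (r y) := by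
  intro Y' _ r' bs π hr' hbs hπ hm
  exact h Y' (fun y => r (r' y)) bs π (hr.comp hr') hbs hπ hm

omit [IsTopologicalGroup G] [T2Space G] [SecondCountableTopology G] [BorelSpace G] in
private theorem MF_ints {k : ℕ} {φ : Z → Fn G} (D : List (Z → G)) (h : MF k D.length φ)
    (hD : ∀ c ∈ D, Measurable c) : Measurable fun z => φ z ((ev D z).map GP.int) := by
  have h1 := h Z id [] (D.map fun c => (false, c)) measurable_id (by simp)
    (List.length_map ..) (by
      intro e he
      obtain ⟨c, hc, rfl⟩ := List.mem_map.1 he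
      exact ⟨hD c hc, fun h => absurd h (by simp)⟩)
  have e : ∀ z, pt (D.map fun c => (false, c)) z = (ev D z).map GP.int := by
    intro z
    unfold pt ev
    rw [List.map_map, List.map_map]
    rfl
  simp only [e] at h1
  exact h1

/-- the first part of the list is fixed -/
private theorem MF_app {k₁ k₂ L₁ L₂ : ℕ} {φ : Z → Fn G} (h : MF (k₁ + k₂) (L₁ + L₂) φ)
    {Y : Type} [MeasurableSpace Y] {r : Y → Z} (hr : Measurable r) (bs : List (Y → G))
    (hbs : bs.length ≤ k₁) (π : List (Bool × (Y → G))) (hπ : π.length = L₁)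
    (hm : ∀ e ∈ π, Measurable e.2 ∧ (e.1 = true → e.2 ∈ bs)) :
    MF k₂ L₂ fun y l => φ (r y) (pt π y ++ l) := by
  intro Y' _ r' bs' π' hr' hbs' hπ' hm'
  have h1 := h Y' (fun y => r (r' y)) (bs.map (fun c y => c (r' y)) ++ bs')
    (π.map (fun e => (e.1, fun y => e.2 (r' y))) ++ π') (hr.comp hr')
    (by rw [List.length_append, List.length_map]; omega)
    (by rw [List.length_append, List.length_map]; omega) (by
      intro e he
      rcases List.mem_append.1 he with he | he
      · obtain ⟨e', he', rfl⟩ := List.mem_map.1 he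
        refine ⟨(hm e' he').1.comp hr', fun h => List.mem_append_left _ ?_⟩
        exact List.mem_map.2 ⟨e'.2, (hm e' he').2 h, rfl⟩
      · exact ⟨(hm' e he).1, fun h => List.mem_append_right _ ((hm' e he).2 h)⟩)
  have e : ∀ y, pt (π.map (fun e => (e.1, fun y => e.2 (r' y))) ++ π') y =
      pt π (r' y) ++ pt π' y := by
    intro y
    unfold pt
    rw [List.map_append, List.map_map]
    rfl
  simp only [e] at h1
  exact h1

/-! ### the chain maps -/

private theorem meas_sd (hν : Measurable Γ.nu) (L : ℕ) : ∀ (Z : Type) [MeasurableSpace Z]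
    (n : Z → G) (φ : Z → Fn G) (D : List (Z → G)), Measurable n → D.length = L → MF 1 L φ →
    (∀ c ∈ D, Measurable c) → Measurable fun z => sd (rt Γ (n z)) (φ z) (ev D z) := by
  induction L with
  | zero =>
    intro Z _ n φ D hn hl hφ hD
    rw [List.length_eq_zero_iff] at hl
    subst hl
    exact MF_zero hφ
  | succ L ih =>
    intro Z _ n φ D hn hl hφ hD
    by_cases hL : L = 0
    · subst hL
      obtain ⟨g, rfl⟩ := List.length_eq_one_iff.1 hl
      have hg : Measurable g := hD g (by simp)
      have h1 : ∀ z, sd (rt Γ (n z)) (φ z) (ev [g] z) = φ z [GP.bdp (g z)] := by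
        intro z
        show sd (rt Γ (n z)) (φ z) [g z] = _
        rw [sd_single]
        rfl
      simp only [h1]
      exact hφ Z id [g] [(true, g)] measurable_id (by simp) rfl (by
        intro e he
        rw [List.mem_singleton.1 he]
        exact ⟨hg, fun _ => by simp⟩)
    · have h1 : ∀ z, sd (rt Γ (n z)) (φ z) (ev D z) =
          dl (sd (rt Γ (n z)) (cone (GP.int (Γ.root (n z) (ev D z))) (φ z))) (ev D z) := by
        intro z
        have h2 : ev D z ≠ [] := by
          intro h
          have h3 := ev_length D z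
          rw [h] at h3
          rw [← h3] at hl
          simp at hl
        rw [sd_ne h2]
        have h3 : rt Γ (n z) (ev D z) = GP.int (Γ.root (n z) (ev D z)) := by
          unfold rt
          rw [if_neg (by rw [ev_length]; omega)]
        rw [h3]
      simp only [h1]
      refine meas_dl (fun z => sd (rt Γ (n z)) (cone (GP.int (Γ.root (n z) (ev D z))) (φ z))) D ?_
      intro i hi
      refine ih Z n _ (D.eraseIdx i) hn ?_ (MF_int hφ (meas_root hν hn D hD)) ?_
      · rw [List.length_eraseIdx_of_lt hi, hl]
        rfl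
      · exact fun c hc => hD c (List.mem_of_mem_eraseIdx hc)

private theorem meas_sdp (hν : Measurable Γ.nu) {n : Z → G} (hn : Measurable n) {φ : Z → Fn G}
    (D : List (Z → G)) (hφ : MF 1 D.length φ) (hD : ∀ c ∈ D, Measurable c) :
    Measurable fun z => sdp Γ (n z) (φ z) (ev D z) :=
  meas_sd hν D.length Z n φ D hn rfl hφ hD

private theorem meas_sdm (hν : Measurable Γ.nu) {n : Z → G} (hn : Measurable n) {φ : Z → Fn G}
    (D : List (Z → G)) (hφ : MF 1 D.length φ) (hD : ∀ c ∈ D, Measurable c) :
    Measurable fun z => sdm Γ (n z) (φ z) (ev D z) :=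
  meas_sd hν D.length Z (fun z => n z * Γ.flip) φ D (hn.mul_const _) rfl hφ hD

private theorem ev_comp {Y : Type} (D : List (Z → G)) (r : Y → Z) (y : Y) :
    ev (D.map fun c y => c (r y)) y = ev D (r y) := by
  unfold ev
  rw [List.map_map]
  rfl

private theorem meas_J2 (hν : Measurable Γ.nu) {n : Z → G} (hn : Measurable n) {φ : Z → Fn G}
    (A B : List (Z → G)) (hφ : MF 2 (A.length + B.length) φ) (hA : ∀ c ∈ A, Measurable c)
    (hB : ∀ c ∈ B, Measurable c) : Measurable fun z => J2 Γ (n z) (φ z) (ev A z) (ev B z) := by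
  refine meas_sdm hν hn (φ := fun z l => sdp Γ (n z) (fun l' => φ z (l ++ l')) (ev B z)) A ?_ hA
  intro Y _ r bs π hr hbs hπ hm
  have h1 := MF_app (k₁ := 1) (k₂ := 1) hφ hr bs hbs π hπ hm
  have h2 := meas_sdp hν (hn.comp hr) (B.map fun c y => c (r y)) (by
    rw [List.length_map]
    exact h1) (by
      intro c hc
      obtain ⟨c', hc', rfl⟩ := List.mem_map.1 hc
      exact (hB c' hc').comp hr)
  simp only [ev_comp] at h2
  exact h2

private theorem meas_S2k (hν : Measurable Γ.nu) (k : ℕ) : ∀ (n : Z → G) (φ : Z → Fn G)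
    (A B : List (Z → G)), Measurable n → MF 2 (A.length + B.length) φ → (∀ c ∈ A, Measurable c) →
    (∀ c ∈ B, Measurable c) → Measurable fun z => S2k Γ (n z) k (φ z) (ev A z) (ev B z) := by
  induction k with
  | zero =>
    intro n φ A B hn hφ hA hB
    exact meas_J2 hν hn A B hφ hA hB
  | succ k ih =>
    intro n φ A B hn hφ hA hB
    by_cases h : A.length ≤ 1 ∨ B.length ≤ 1
    · have e : ∀ z, S2k Γ (n z) (k + 1) (φ z) (ev A z) (ev B z) =
          J2 Γ (n z) (φ z) (ev A z) (ev B z) := by
        intro z
        show (if _ then _ else _) = _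
        rw [if_pos (by rwa [ev_length, ev_length])]
      simp only [e]
      exact meas_J2 hν hn A B hφ hA hB
    · have e : ∀ z, S2k Γ (n z) (k + 1) (φ z) (ev A z) (ev B z) =
          d2 (S2k Γ (n z) k (cone (GP.int (Γ.mid (ev A z) (ev B z))) (φ z))) (ev A z) (ev B z) := by
        intro z
        show (if _ then _ else _) = _
        rw [if_neg (by rwa [ev_length, ev_length])]
      simp only [e]
      have hmid := meas_mid hν A B hA hB
      refine meas_d2 (fun z => S2k Γ (n z) k (cone (GP.int (Γ.mid (ev A z) (ev B z))) (φ z))) A B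
        ?_ ?_
      · intro i hi
        refine ih n _ (A.eraseIdx i) B hn (MF_int ?_ hmid)
          (fun c hc => hA c (List.mem_of_mem_eraseIdx hc)) hB
        rw [List.length_eraseIdx_of_lt hi, show A.length - 1 + B.length + 1 =
          A.length + B.length by omega]
        exact hφ
      · intro i hi
        refine ih n _ A (B.eraseIdx i) hn (MF_int ?_ hmid) hA
          (fun c hc => hB c (List.mem_of_mem_eraseIdx hc))
        rw [List.length_eraseIdx_of_lt hi, show A.length + (B.length - 1) + 1 =
          A.length + B.length by omega]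
        exact hφ

private theorem meas_S2 (hν : Measurable Γ.nu) {n : Z → G} (hn : Measurable n) {φ : Z → Fn G}
    (A B : List (Z → G)) (hφ : MF 2 (A.length + B.length) φ) (hA : ∀ c ∈ A, Measurable c)
    (hB : ∀ c ∈ B, Measurable c) : Measurable fun z => S2 Γ (n z) (φ z) (ev A z) (ev B z) := by
  unfold S2
  simp only [ev_length]
  exact meas_S2k hν _ n φ A B hn hφ hA hB

private theorem meas_Xi2 (hν : Measurable Γ.nu) {n : Z → G} (hn : Measurable n) {φ : Z → Fn G}
    (A B : List (Z → G)) (hφ : MF 2 (A.length + B.length + 1) φ) (hA : ∀ c ∈ A, Measurable c)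
    (hB : ∀ c ∈ B, Measurable c) : Measurable fun z => Xi2 Γ (n z) (φ z) (ev A z) (ev B z) := by
  cases A with
  | nil =>
    have e : ∀ z, Xi2 Γ (n z) (φ z) (ev [] z) (ev B z) =
        sdp Γ (n z) (cone (GP.bdp (n z)) (φ z)) (ev B z) := fun z => if_pos rfl
    simp only [e]
    refine meas_sdp hν hn B (MF_bdp ?_ hn) hB
    rw [List.length_nil, zero_add] at hφ
    exact hφ
  | cons a A =>
    cases B with
    | nil =>
      have e : ∀ z, Xi2 Γ (n z) (φ z) (ev (a :: A) z) (ev [] z) =
          (-1 : ℝ) ^ (A.length + 1) *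
            sdm Γ (n z) (fun l => φ z (l ++ [GP.bdp (opp Γ (n z))])) (ev (a :: A) z) := by
        intro z
        unfold Xi2
        rw [if_neg (by simp [ev]), if_pos (by simp [ev]), ev_length, List.length_cons]
      simp only [e]
      refine Measurable.const_mul (meas_sdm hν hn (a :: A) (MF_snoc ?_ (hn.mul_const _)) hA) _
      rw [List.length_nil, add_zero] at hφ
      exact hφ
    | cons b B =>
      have e : ∀ z, Xi2 Γ (n z) (φ z) (ev (a :: A) z) (ev (b :: B) z) = 0 := by
        intro z
        unfold Xi2
        rw [if_neg (by simp [ev]), if_neg (by simp [ev])]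
      simp only [e]
      exact measurable_const

open Classical in
private theorem meas_Sh (A : Z → Finset G) (C : List (Z → G))
    (hC : ∀ c ∈ C, Measurable c ∧ MeasurableSet {z | c z ∈ A z}) :
    ∀ Φ : Z → List G → List G → ℝ, (∀ D E : List (Z → G), (∀ c ∈ D, Measurable c) →
      (∀ c ∈ E, Measurable c) → D.length + E.length = C.length →
      Measurable fun z => Φ z (ev D z) (ev E z)) →
    Measurable fun z => Sh (fun g => g ∈ A z) (ev C z) (Φ z) := by
  induction C with
  | nil =>
    intro Φ h
    exact h [] [] (by simp) (by simp) rfl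
  | cons c C ih =>
    intro Φ h
    obtain ⟨hc, hcA⟩ := hC c (by simp)
    have hC' := fun c' hc' => hC c' (List.mem_cons_of_mem c hc')
    refine Measurable.ite hcA ?_ ?_
    · refine ih hC' (fun z D E => Φ z (c z :: D) E) ?_
      intro D E hD hE hl
      refine h (c :: D) E ?_ hE ?_
      · intro c' hc'
        rcases List.mem_cons.1 hc' with rfl | hc'
        · exact hc
        · exact hD c' hc'
      · rw [List.length_cons, List.length_cons]
        omega
    · refine ih hC' (fun z D E => (-1 : ℝ) ^ D.length • Φ z D (c z :: E)) ?_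
      intro D E hD hE hl
      simp only [ev_length]
      refine Measurable.const_mul (h D (c :: E) hD ?_ ?_) _
      · intro c' hc'
        rcases List.mem_cons.1 hc' with rfl | hc'
        · exact hc
        · exact hE c' hc'
      · rw [List.length_cons, List.length_cons]
        omega

private theorem meas_Sc (hν : Measurable Γ.nu) {n : Z → G} (hn : Measurable n) (A : Z → Finset G)
    {φ : Z → Fn G} (C : List (Z → G)) (hφ : MF 2 C.length φ)
    (hC : ∀ c ∈ C, Measurable c ∧ MeasurableSet {z | c z ∈ A z}) :
    Measurable fun z => Sc Γ (n z) (A z) (φ z) (ev C z) := by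
  classical
  refine meas_Sh A C hC (fun z => S2 Γ (n z) (φ z)) ?_
  intro D E hD hE hl
  exact meas_S2 hν hn D E (by rw [hl]; exact hφ) hD hE

private theorem meas_Xi (hν : Measurable Γ.nu) {n : Z → G} (hn : Measurable n) (A : Z → Finset G)
    {φ : Z → Fn G} (C : List (Z → G)) (hφ : MF 2 (C.length + 1) φ)
    (hC : ∀ c ∈ C, Measurable c ∧ MeasurableSet {z | c z ∈ A z}) :
    Measurable fun z => Xi Γ (n z) (A z) (φ z) (ev C z) := by
  classical
  refine meas_Sh A C hC (fun z => Xi2 Γ (n z) (φ z)) ?_
  intro D E hD hE hl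
  exact meas_Xi2 hν hn D E (by rw [hl]; exact hφ) hD hE

private theorem meas_Lamk (hν : Measurable Γ.nu) {n : Z → G} (hn : Measurable n)
    (A : Z → Finset G) (k : ℕ) : ∀ (φ : Z → Fn G) (C : List (Z → G)), MF 2 (C.length + 1) φ →
    (∀ c ∈ C, Measurable c ∧ MeasurableSet {z | c z ∈ A z}) →
    Measurable fun z => Lamk Γ (n z) (A z) k (φ z) (ev C z) := by
  induction k with
  | zero =>
    intro φ C _ _
    exact measurable_const
  | succ k ih =>
    intro φ C hφ hC
    cases C with
    | nil =>
      have h0 := MF_int (v := fun _ : Z => (1 : G)) hφ measurable_const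
      refine ((MF_ints [] h0 (by simp)).sub (meas_Sc hν hn A [] h0 (by simp))).sub ?_
      exact measurable_const
    | cons c C =>
      have hc : Measurable c := (hC c (by simp)).1
      have h0 := MF_int (v := c) hφ hc
      refine ((MF_ints (c :: C) h0 fun c' hc' => (hC c' hc').1).sub
        (meas_Sc hν hn A (c :: C) h0 hC)).sub ?_
      refine meas_dl (fun z => Lamk Γ (n z) (A z) k (cone (GP.int (c z)) (φ z))) (c :: C) ?_
      intro i hi
      refine ih (fun z => cone (GP.int (c z)) (φ z)) ((c :: C).eraseIdx i) ?_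
        (fun c' hc' => hC c' (List.mem_of_mem_eraseIdx hc'))
      rw [List.length_eraseIdx_of_lt hi]
      exact h0

/-- MEAS-NECK -/
theorem exists_neck_meas (hν : Measurable Γ.nu) (hG : NeckGeo Γ) {N : ℕ} (hN : 3 ≤ N)
    (S : Sys Γ N) : ∃ K : Neck S, NeckMeas K := by
  obtain ⟨K, hK⟩ := Pool.Agent.Helper14.BN.exists_neck_gt hG hN S
  refine ⟨K, ?_⟩
  intro Z _ n s t A C hn hs ht hl hC
  rw [hK]
  have hF : MF 2 (C.length + 1) fun z X => S.F X (s z) (t z) := by
    rw [hl]
    exact MF_F hν S s t hs ht
  have h1 : Measurable fun z => Lam Γ (n z) (A z) (fun X => S.F X (s z) (t z)) (ev C z) := by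
    unfold Lam
    simp only [ev_length]
    exact meas_Lamk hν hn A C.length _ C hF hC
  exact h1.add (meas_Xi hν hn A C hF hC)

end Pool.Agent.Helper59.BR
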