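import Pool.Agent.Helper11.BR.Defs

/-!
# Project BR, block NECK for `N = 2`

`F` is a quasi-cocycle in its two points; for `a` ahead and `b` behind it is the value at the ends
of the line, up to a constant (parabolic motions).
-/

set_option autoImplicit false

namespace Pool.Agent.Helper59.BR

open Pool.Agent.Helper11.BC (dl)
open Pool.Agent.Helper11.BR

variable {G : Type} [Group G] [TopologicalSpace G] {Γ : R1 G}

/-! ### the pseudo-distance -/

theorem d_comm (x y : G) : Γ.d x y = Γ.d y x := by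
  unfold R1.d
  rw [← Γ.rho_inv (x⁻¹ * y), mul_inv_rev, inv_inv]

theorem d_tri (x y z : G) : Γ.d x z ≤ Γ.d x y + Γ.d y z := by
  unfold R1.d
  have h := Γ.rho_mul (x⁻¹ * y) (y⁻¹ * z)
  have e : x⁻¹ * y * (y⁻¹ * z) = x⁻¹ * z := by group
  rwa [e] at h

theorem d_nonneg (x y : G) : 0 ≤ Γ.d x y := by
  have h := d_tri (Γ := Γ) x y x
  rw [d_comm y x] at h
  have h0 : Γ.d x x = 0 := by
    unfold R1.d
    rw [inv_mul_cancel, Γ.rho_one]
  rw [h0] at h
  linarith

theorem d_mul (g x y : G) : Γ.d (g * x) (g * y) = Γ.d x y := by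
  unfold R1.d
  congr 1
  group

variable (S : Sys Γ 2)

private theorem quasi (x y z : GP G) (s t : G) :
    |S.F [y, z] s t - S.F [x, z] s t + S.F [x, y] s t| ≤ 2 * S.C := by
  have h1 := S.F_bd [x, y, z] s t rfl
  have h2 : dl (fun X => S.F X s t) [x, y, z] =
      S.F [y, z] s t - S.F [x, z] s t + S.F [x, y] s t := by
    unfold dl
    simp [Finset.sum_range_succ]
    ring
  rw [h2] at h1
  rw [h1]
  refine (abs_sub _ _).trans ?_
  have h3 := S.f0_bdd s [x, y, z] rfl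
  have h4 := S.f0_bdd t [x, y, z] rfl
  linarith

private theorem F_self (x : GP G) (s t : G) : |S.F [x, x] s t| ≤ 2 * S.C := by
  have h := quasi S x x x s t
  rwa [sub_self, zero_add] at h

private theorem F_symm (x y : GP G) (s t : G) :
    |S.F [x, y] s t + S.F [y, x] s t| ≤ 4 * S.C := by
  have h1 := quasi S x y x s t
  have h2 := F_self S x s t
  rw [abs_le] at h1 h2 ⊢
  constructor <;> linarith

private theorem F_two (x y : GP G) (s t : G) : |S.F [x, y] s t| ≤ S.C * Γ.d s t :=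
  S.F_growth [x, y] s t rfl

/-- change of the end points of the path -/
private theorem path (x y : GP G) {s t s' t' : G} {c : ℝ} (h1 : Γ.d s s' ≤ c)
    (h2 : Γ.d t t' ≤ c) :
    |S.F [x, y] s t - S.F [x, y] s' t'| ≤ 2 * (S.C * c) := by
  have e1 := S.F_add [x, y] s s' t (by rfl)
  have e2 := S.F_add [x, y] s' t' t (by rfl)
  have h3 := F_two S x y s s'
  have h4 := F_two S x y t' t
  rw [d_comm t' t] at h4
  have h5 := S.one_le_C
  have h6 : S.C * Γ.d s s' ≤ S.C * c := mul_le_mul_of_nonneg_left h1 (by linarith)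
  have h7 : S.C * Γ.d t t' ≤ S.C * c := mul_le_mul_of_nonneg_left h2 (by linarith)
  rw [abs_le] at h3 h4 ⊢
  constructor <;> linarith

/-- a motion which maps the ends to the given ends -/
private theorem motion (p a b a' b' : G) (ha : Γ.SameEnd (p * a') a) (hb : Γ.SameEnd (p * b') b)
    {s t : G} {c : ℝ} (h1 : Γ.d s (p * s) ≤ c) (h2 : Γ.d t (p * t) ≤ c) :
    |S.F [GP.bdp a', GP.bdp b'] s t - S.F [GP.bdp a, GP.bdp b] s t| ≤ 2 * (S.C * c) := by
  have e1 : S.F [GP.bdp (p * a'), GP.bdp (p * b')] (p * s) (p * t) =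
      S.F [GP.bdp a', GP.bdp b'] s t := S.F_inv p [GP.bdp a', GP.bdp b'] s t
  have e2 : S.F [GP.bdp (p * a'), GP.bdp (p * b')] (p * s) (p * t) =
      S.F [GP.bdp a, GP.bdp (p * b')] (p * s) (p * t) :=
    S.F_same [] [GP.bdp (p * b')] (p * a') a _ _ rfl ha
  have e3 : S.F [GP.bdp a, GP.bdp (p * b')] (p * s) (p * t) =
      S.F [GP.bdp a, GP.bdp b] (p * s) (p * t) :=
    S.F_same [GP.bdp a] [] (p * b') b _ _ rfl hb
  have h3 := path S (GP.bdp a) (GP.bdp b) h1 h2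
  rw [← e1, e2, e3, abs_sub_comm]
  exact h3

variable (hG : NeckGeo Γ)

include hG

/-- change of the point ahead -/
private theorem move_a : ∃ K L : ℝ, 0 ≤ K ∧ 0 ≤ L ∧ ∀ n τ₁ τ₂ a a' b, τ₁ + L ≤ τ₂ →
    Γ.Ahead n τ₂ a → Γ.Ahead n τ₂ a' → Γ.Behind n τ₁ b →
    |S.F [GP.bdp a', GP.bdp b] (Γ.ln n τ₁) (Γ.ln n τ₂) -
      S.F [GP.bdp a, GP.bdp b] (Γ.ln n τ₁) (Γ.ln n τ₂)| ≤ K := by
  obtain ⟨K, L, h⟩ := hG.disp_ln
  have hC := S.one_le_C
  refine ⟨2 * (S.C * |K|), max L 1, by positivity, by positivity, ?_⟩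
  intro n τ₁ τ₂ a a' b hτ ha ha' hb
  have hL := le_max_left L 1
  have hL' := le_max_right L 1
  obtain ⟨h1, h2⟩ := h n τ₁ τ₂ a a' b (by linarith) ha ha' hb
  have n1 := hG.not_same n τ₁ τ₂ a b (by linarith) hb ha
  have n2 := hG.not_same n τ₁ τ₂ a' b (by linarith) hb ha'
  exact motion S (Γ.par b a' a) a b a' b (hG.same_symm _ _ (hG.par_map b a' a n2 n1))
    (hG.same_symm _ _ (hG.par_fix b a' a)) (h1.trans (le_abs_self K)) (h2.trans (le_abs_self K))

/-- change of the point behind -/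
private theorem move_b : ∃ K L : ℝ, 0 ≤ K ∧ 0 ≤ L ∧ ∀ n τ₁ τ₂ a b b', τ₁ + L ≤ τ₂ →
    Γ.Ahead n τ₂ a → Γ.Behind n τ₁ b → Γ.Behind n τ₁ b' →
    |S.F [GP.bdp a, GP.bdp b'] (Γ.ln n τ₁) (Γ.ln n τ₂) -
      S.F [GP.bdp a, GP.bdp b] (Γ.ln n τ₁) (Γ.ln n τ₂)| ≤ K := by
  obtain ⟨K, L, h⟩ := hG.disp_ln'
  have hC := S.one_le_C
  refine ⟨2 * (S.C * |K|), max L 1, by positivity, by positivity, ?_⟩
  intro n τ₁ τ₂ a b b' hτ ha hb hb'
  have hL := le_max_left L 1
  have hL' := le_max_right L 1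
  obtain ⟨h1, h2⟩ := h n τ₁ τ₂ a b b' (by linarith) ha hb hb'
  have n1 : ¬ Γ.SameEnd a b := fun h => hG.not_same n τ₁ τ₂ a b (by linarith) hb ha
    (hG.same_symm _ _ h)
  have n2 : ¬ Γ.SameEnd a b' := fun h => hG.not_same n τ₁ τ₂ a b' (by linarith) hb' ha
    (hG.same_symm _ _ h)
  exact motion S (Γ.par a b' b) a b a b' (hG.same_symm _ _ (hG.par_fix a b' b))
    (hG.same_symm _ _ (hG.par_map a b' b n2 n1)) (h1.trans (le_abs_self K))
    (h2.trans (le_abs_self K))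

omit hG in
/-- the value at the ends of the line `n` -/
noncomputable def ends (n : G) (s t : G) : ℝ :=
  S.F [GP.bdp n, GP.bdp (n * Γ.flip)] s t

private theorem bounds : ∃ K L : ℝ, 0 ≤ K ∧ 0 ≤ L ∧
    (∀ n τ₁ τ₂ a b, τ₁ + L ≤ τ₂ → Γ.Ahead n τ₂ a → Γ.Behind n τ₁ b →
      |S.F [GP.bdp a, GP.bdp b] (Γ.ln n τ₁) (Γ.ln n τ₂) -
        ends S n (Γ.ln n τ₁) (Γ.ln n τ₂)| ≤ K) ∧
    (∀ n τ₁ τ₂ b b', τ₁ + L ≤ τ₂ → Γ.Behind n τ₁ b → Γ.Behind n τ₁ b' →
      |S.F [GP.bdp b, GP.bdp b'] (Γ.ln n τ₁) (Γ.ln n τ₂)| ≤ K) ∧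
    ∀ n τ₁ τ₂ a a', τ₁ + L ≤ τ₂ → Γ.Ahead n τ₂ a → Γ.Ahead n τ₂ a' →
      |S.F [GP.bdp a, GP.bdp a'] (Γ.ln n τ₁) (Γ.ln n τ₂)| ≤ K := by
  obtain ⟨K, L, hK, hL, h⟩ := move_a S hG
  obtain ⟨K', L', hK', hL', h'⟩ := move_b S hG
  have hC := S.one_le_C
  have m1 := le_max_left L L'
  have m2 := le_max_right L L'
  refine ⟨K + K' + 6 * S.C, max L L', by linarith, by linarith, ?_, ?_, ?_⟩
  · intro n τ₁ τ₂ a b hτ ha hb
    have h1 := h n τ₁ τ₂ n a b (by linarith) (hG.ahead_self n τ₂) ha hb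
    have h2 := h' n τ₁ τ₂ n (n * Γ.flip) b (by linarith) (hG.ahead_self n τ₂)
      (hG.behind_opp n τ₁) hb
    unfold ends
    rw [abs_le] at h1 h2 ⊢
    constructor <;> linarith
  · intro n τ₁ τ₂ b b' hτ hb hb'
    have h1 := h' n τ₁ τ₂ n b b' (by linarith) (hG.ahead_self n τ₂) hb hb'
    have h2 := quasi S (GP.bdp b) (GP.bdp n) (GP.bdp b') (Γ.ln n τ₁) (Γ.ln n τ₂)
    have h3 := F_symm S (GP.bdp b) (GP.bdp n) (Γ.ln n τ₁) (Γ.ln n τ₂)
    rw [abs_le] at h1 h2 h3 ⊢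
    constructor <;> linarith
  · intro n τ₁ τ₂ a a' hτ ha ha'
    have h1 := h n τ₁ τ₂ a a' (n * Γ.flip) (by linarith) ha ha' (hG.behind_opp n τ₁)
    have h2 := quasi S (GP.bdp a) (GP.bdp (n * Γ.flip)) (GP.bdp a') (Γ.ln n τ₁) (Γ.ln n τ₂)
    have h3 := F_symm S (GP.bdp (n * Γ.flip)) (GP.bdp a') (Γ.ln n τ₁) (Γ.ln n τ₂)
    rw [abs_le] at h1 h2 h3 ⊢
    constructor <;> linarith

omit hG in
/-- the interior point against its end -/
noncomputable def uu (c : G) (s t : G) : ℝ := S.F [GP.int c, GP.bdp c] s t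

omit hG in
private theorem int_bdp (c c' : G) (s t : G) :
    |S.F [GP.int c, GP.int c'] s t -
      (uu S c s t - uu S c' s t + S.F [GP.bdp c, GP.bdp c'] s t)| ≤ 8 * S.C := by
  have h1 := quasi S (GP.int c) (GP.bdp c) (GP.int c') s t
  have h2 := quasi S (GP.bdp c) (GP.bdp c') (GP.int c') s t
  have h3 := F_symm S (GP.bdp c') (GP.int c') s t
  unfold uu
  rw [abs_le] at h1 h2 h3 ⊢
  constructor <;> linarith

omit hG in
open Classical in
/-- the coefficient of the type -/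
noncomputable def sg (A : Finset G) (c : G) : ℝ := if c ∈ A then -(1 / 2) else 1 / 2

omit hG in
private theorem sg_abs (A : Finset G) (c : G) : |sg A c| = 1 / 2 := by
  unfold sg
  split_ifs
  · rw [abs_neg, abs_of_pos]
    norm_num
  · rw [abs_of_pos]
    norm_num

omit hG in
/-- the functions `g` -/
noncomputable def gt2 (n : G) (A : Finset G) : List G → G → G → ℝ
  | [c], s, t => -uu S c s t + sg A c * ends S n s t
  | _, _, _ => 0

omit hG in
theorem gt2_one (n : G) (A : Finset G) (c : G) (s t : G) :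
    gt2 S n A [c] s t = -uu S c s t + sg A c * ends S n s t := rfl

private theorem ends_close (C₀ : ℝ) : ∃ K : ℝ, 0 ≤ K ∧ ∀ (n n' : G) (τ₁ τ₂ τ₁' τ₂' : ℝ),
    τ₁ ≤ τ₂ → τ₁' ≤ τ₂' → Γ.d (Γ.ln n τ₁) (Γ.ln n' τ₁') ≤ C₀ →
    Γ.d (Γ.ln n τ₂) (Γ.ln n' τ₂') ≤ C₀ →
    |ends S n (Γ.ln n τ₁) (Γ.ln n τ₂) - ends S n' (Γ.ln n' τ₁') (Γ.ln n' τ₂')| ≤ K := by
  obtain ⟨K, L, hK, hL, h, -, -⟩ := bounds S hG
  obtain ⟨La, ha⟩ := hG.close_ahead C₀
  obtain ⟨Lb, hb⟩ := hG.close_behind C₀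
  have hC := S.one_le_C
  set M : ℝ := |La| + |Lb| with hM
  have hM0 : 0 ≤ M := by positivity
  have hLa := le_abs_self La
  have hLb := le_abs_self Lb
  have hLa0 := abs_nonneg La
  have hLb0 := abs_nonneg Lb
  have hMa : La ≤ M := by linarith
  have hMb : Lb ≤ M := by linarith
  refine ⟨K + 4 * (S.C * M) + 2 * (S.C * (2 * M + L)) + 2 * (S.C * |C₀|), by positivity, ?_⟩
  intro n n' τ₁ τ₂ τ₁' τ₂' hτ hτ' h1 h2
  have hp := path S (GP.bdp n') (GP.bdp (n' * Γ.flip)) (h1.trans (le_abs_self C₀))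
    (h2.trans (le_abs_self C₀))
  have hCM : 0 ≤ S.C * M := by positivity
  have hCC : 0 ≤ S.C * |C₀| := by positivity
  have hCL : 0 ≤ S.C * (2 * M + L) := by positivity
  by_cases hlong : τ₁ + (2 * M + L) ≤ τ₂
  · have h3 := ha n n' τ₁ τ₂ τ₁' τ₂' (by linarith) hτ' h1 h2
    have h4 := hb n n' τ₁ τ₂ τ₁' τ₂' (by linarith) hτ' h1 h2
    have h3' := hG.ahead_mono n (τ₂ - M) (τ₂ - La) n' (by linarith) h3
    have h4' := hG.behind_mono n (τ₁ + Lb) (τ₁ + M) (n' * Γ.flip) (by linarith) h4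
    have h5 := h n (τ₁ + M) (τ₂ - M) n' (n' * Γ.flip) (by linarith) h3' h4'
    have q1 : Γ.d (Γ.ln n τ₁) (Γ.ln n (τ₁ + M)) ≤ M := by
      rw [hG.ln_dist, show τ₁ - (τ₁ + M) = -M by ring, abs_neg, abs_of_nonneg hM0]
    have q2 : Γ.d (Γ.ln n τ₂) (Γ.ln n (τ₂ - M)) ≤ M := by
      rw [hG.ln_dist, show τ₂ - (τ₂ - M) = M by ring, abs_of_nonneg hM0]
    have h6 := path S (GP.bdp n') (GP.bdp (n' * Γ.flip)) q1 q2
    have h7 := path S (GP.bdp n) (GP.bdp (n * Γ.flip)) q1 q2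
    unfold ends at h5 ⊢
    rw [abs_le] at h5 h6 h7 hp ⊢
    constructor <;> linarith
  · have h3 : Γ.d (Γ.ln n τ₁) (Γ.ln n τ₂) ≤ 2 * M + L := by
      rw [hG.ln_dist, abs_sub_comm, abs_of_nonneg (by linarith)]
      linarith
    have h4 := F_two S (GP.bdp n) (GP.bdp (n * Γ.flip)) (Γ.ln n τ₁) (Γ.ln n τ₂)
    have h5 := F_two S (GP.bdp n') (GP.bdp (n' * Γ.flip)) (Γ.ln n τ₁) (Γ.ln n τ₂)
    have h6 : S.C * Γ.d (Γ.ln n τ₁) (Γ.ln n τ₂) ≤ S.C * (2 * M + L) :=
      mul_le_mul_of_nonneg_left h3 (by linarith)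
    unfold ends
    rw [abs_le] at h4 h5 hp ⊢
    constructor <;> linarith

open Classical in
theorem neck2 : ∃ K : Neck S, K.gt = gt2 S := by
  obtain ⟨K, L, hK, hL, hmix, hpb, hpa⟩ := bounds S hG
  have hC := S.one_le_C
  refine ⟨{ gt := gt2 S
            K := K + 20 * S.C + 2 * (S.C * L)
            one_le_K := by
              have : 0 ≤ S.C * L := by positivity
              linarith
            gt_add := ?_
            gt_growth := ?_
            gt_inv := ?_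
            neck := ?_
            close := ?_ }, rfl⟩
  · intro n A C' s t u hl
    obtain ⟨c, rfl⟩ := List.length_eq_one_iff.1 (by omega : C'.length = 1)
    rw [gt2_one, gt2_one, gt2_one]
    unfold uu ends
    rw [← S.F_add [GP.int c, GP.bdp c] s t u rfl,
      ← S.F_add [GP.bdp n, GP.bdp (n * Γ.flip)] s t u rfl]
    ring
  · intro n A C' s t hl
    obtain ⟨c, rfl⟩ := List.length_eq_one_iff.1 (by omega : C'.length = 1)
    rw [gt2_one]
    have h1 := F_two S (GP.int c) (GP.bdp c) s t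
    have h2 := F_two S (GP.bdp n) (GP.bdp (n * Γ.flip)) s t
    have h3 := sg_abs A c
    have h4 : |sg A c * ends S n s t| = 1 / 2 * |ends S n s t| := by rw [abs_mul, h3]
    refine (abs_add_le _ _).trans ?_
    rw [h4, abs_neg]
    unfold uu ends
    have h5 := d_nonneg (Γ := Γ) s t
    have h6 : 0 ≤ K * Γ.d s t := mul_nonneg hK h5
    have h7 : 0 ≤ S.C * Γ.d s t := mul_nonneg (by linarith) h5
    have h8 : 0 ≤ S.C * L * Γ.d s t := mul_nonneg (by positivity) h5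
    nlinarith
  · intro h n A A' C' s t hA
    match C' with
    | [] => rfl
    | [c] =>
      show gt2 S (h * n) A' [h * c] (h * s) (h * t) = _
      rw [gt2_one, gt2_one]
      have h1 : uu S (h * c) (h * s) (h * t) = uu S c s t :=
        S.F_inv h [GP.int c, GP.bdp c] s t
      have h2 : ends S (h * n) (h * s) (h * t) = ends S n s t := by
        unfold ends
        rw [mul_assoc]
        exact S.F_inv h [GP.bdp n, GP.bdp (n * Γ.flip)] s t
      have h3 : sg A' (h * c) = sg A c := by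
        unfold sg
        have h4 := hA c (List.mem_singleton.2 rfl)
        by_cases h5 : c ∈ A
        · rw [if_pos h5, if_pos (h4.2 h5)]
        · rw [if_neg h5, if_neg (fun h6 => h5 (h4.1 h6))]
      rw [h1, h2, h3]
    | c :: c' :: l => rfl
  · intro n τ₁ τ₂ A C hτ hg hl hA hB
    obtain ⟨c, c', rfl⟩ := List.length_eq_two.1 hl
    have e1 : dl (fun C' => gt2 S n A C' (Γ.ln n τ₁) (Γ.ln n τ₂)) [c, c'] =
        gt2 S n A [c'] (Γ.ln n τ₁) (Γ.ln n τ₂) - gt2 S n A [c] (Γ.ln n τ₁) (Γ.ln n τ₂) := by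
      unfold dl
      simp [Finset.sum_range_succ]
      ring
    rw [e1, gt2_one, gt2_one]
    show |S.F [GP.int c, GP.int c'] (Γ.ln n τ₁) (Γ.ln n τ₂) - _| ≤ _
    have hCL : 0 ≤ S.C * L := by positivity
    have h1 := int_bdp S c c' (Γ.ln n τ₁) (Γ.ln n τ₂)
    suffices h2 : |S.F [GP.bdp c, GP.bdp c'] (Γ.ln n τ₁) (Γ.ln n τ₂) -
        (sg A c' - sg A c) * ends S n (Γ.ln n τ₁) (Γ.ln n τ₂)| ≤
          K + 4 * S.C + 2 * (S.C * L) by
      rw [abs_le] at h1 h2 ⊢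
      constructor <;> linarith
    by_cases hlong : τ₁ + L ≤ τ₂
    · by_cases hc : c ∈ A
      · have hca := hA c (by simp) hc
        by_cases hc' : c' ∈ A
        · have h3 := hpa n τ₁ τ₂ c c' hlong hca (hA c' (by simp) hc')
          have h4 : sg A c' - sg A c = 0 := by
            unfold sg
            rw [if_pos hc, if_pos hc']
            ring
          rw [h4, zero_mul, sub_zero]
          linarith
        · have h3 := hmix n τ₁ τ₂ c c' hlong hca (hB c' (by simp) hc')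
          have h4 : sg A c' - sg A c = 1 := by
            unfold sg
            rw [if_pos hc, if_neg hc']
            ring
          rw [h4, one_mul]
          linarith
      · have hcb := hB c (by simp) hc
        by_cases hc' : c' ∈ A
        · have h3 := hmix n τ₁ τ₂ c' c hlong (hA c' (by simp) hc') hcb
          have h5 := F_symm S (GP.bdp c) (GP.bdp c') (Γ.ln n τ₁) (Γ.ln n τ₂)
          have h4 : sg A c' - sg A c = -1 := by
            unfold sg
            rw [if_neg hc, if_pos hc']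
            ring
          rw [h4]
          rw [abs_le] at h3 h5 ⊢
          constructor <;> linarith
        · have h3 := hpb n τ₁ τ₂ c c' hlong hcb (hB c' (by simp) hc')
          have h4 : sg A c' - sg A c = 0 := by
            unfold sg
            rw [if_neg hc, if_neg hc']
            ring
          rw [h4, zero_mul, sub_zero]
          linarith
    · have h3 := F_two S (GP.bdp c) (GP.bdp c') (Γ.ln n τ₁) (Γ.ln n τ₂)
      have h4 := F_two S (GP.bdp n) (GP.bdp (n * Γ.flip)) (Γ.ln n τ₁) (Γ.ln n τ₂)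
      have h5 : Γ.d (Γ.ln n τ₁) (Γ.ln n τ₂) ≤ L := by
        rw [hG.ln_dist, abs_sub_comm, abs_of_nonneg (by linarith)]
        linarith
      have h6 : S.C * Γ.d (Γ.ln n τ₁) (Γ.ln n τ₂) ≤ S.C * L :=
        mul_le_mul_of_nonneg_left h5 (by linarith)
      have h7 : |sg A c' - sg A c| ≤ 1 := by
        have h8 := sg_abs A c
        have h9 := sg_abs A c'
        have := abs_sub (sg A c') (sg A c)
        linarith
      have h8 : |(sg A c' - sg A c) * ends S n (Γ.ln n τ₁) (Γ.ln n τ₂)| ≤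
          1 * |ends S n (Γ.ln n τ₁) (Γ.ln n τ₂)| := by
        rw [abs_mul]
        exact mul_le_mul_of_nonneg_right h7 (abs_nonneg _)
      refine (abs_sub _ _).trans ?_
      unfold ends at h8 ⊢
      linarith
  · intro C₀
    obtain ⟨K₁, hK₁, hcl⟩ := ends_close S hG C₀
    refine ⟨2 * (S.C * |C₀|) + K₁, ?_⟩
    intro n n' τ₁ τ₂ τ₁' τ₂' A C' h h' hg hl hA hB h1 h2
    obtain ⟨c, rfl⟩ := List.length_eq_one_iff.1 (by omega : C'.length = 1)
    rw [gt2_one, gt2_one]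
    have h3 := path S (GP.int c) (GP.bdp c) (h1.trans (le_abs_self C₀))
      (h2.trans (le_abs_self C₀))
    have h4 := hcl n n' τ₁ τ₂ τ₁' τ₂' h h' h1 h2
    have h5 : |sg A c * (ends S n (Γ.ln n τ₁) (Γ.ln n τ₂) -
        ends S n' (Γ.ln n' τ₁') (Γ.ln n' τ₂'))| ≤ K₁ := by
      rw [abs_mul, sg_abs]
      have := abs_nonneg (ends S n (Γ.ln n τ₁) (Γ.ln n τ₂) -
        ends S n' (Γ.ln n' τ₁') (Γ.ln n' τ₂'))
      linarith
    unfold uu
    rw [abs_le] at h3 h5 ⊢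
    constructor <;> linarith

omit hG in
theorem exists_neck2 {Γ : R1 G} (hG : NeckGeo Γ) (S : Sys Γ 2) : Nonempty (Neck S) :=
  ⟨(neck2 S hG).choose⟩

end Pool.Agent.Helper59.BR
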