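import Pool.Agent.Helper59.BR.MeasDefs
import Pool.Agent.Helper59.BR.Neck2

/-!
# Project BR, block MEAS: measurability of the functions `F` of a system
-/

set_option autoImplicit false

open MeasureTheory Filter Topology

namespace Pool.Agent.Helper59.BR

open Pool.Agent.Helper11.BC (dl)
open Pool.Agent.Helper11.BR

section

variable {G : Type} [Group G] [TopologicalSpace G] {Γ : R1 G}

/-- a constant point or the interior point `g` -/
def evp (o : Option (GP G)) (g : G) : GP G :=
  match o with
  | some p => p
  | none => GP.int g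

/-- change of the interior points -/
private theorem F_move {N : ℕ} (S : Sys Γ N) (s t : G) (q : List (Option (GP G) × G × G)) :
    ∀ pre : List (GP G), pre.length + q.length = N →
      |S.F (pre ++ q.map fun e => evp e.1 e.2.1) s t -
        S.F (pre ++ q.map fun e => evp e.1 e.2.2) s t| ≤
        S.C * Γ.d s t * (q.map fun e => Γ.d e.2.1 e.2.2).sum := by
  induction q with
  | nil =>
    intro pre _
    simp
  | cons e q ih =>
    intro pre hl
    rw [List.map_cons, List.map_cons, List.map_cons, List.sum_cons]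
    have h1 : |S.F (pre ++ evp e.1 e.2.1 :: q.map fun e => evp e.1 e.2.1) s t -
        S.F (pre ++ evp e.1 e.2.2 :: q.map fun e => evp e.1 e.2.1) s t| ≤
        S.C * Γ.d s t * Γ.d e.2.1 e.2.2 := by
      rcases e with ⟨_ | p, g, h⟩
      · refine S.F_lip pre _ g h s t ?_
        rw [List.length_append, List.length_cons, List.length_map]
        rw [List.length_cons] at hl
        omega
      · have h2 : (evp (some p) g : GP G) = evp (some p) h := rfl
        rw [h2, sub_self, abs_zero]
        have h3 := S.one_le_C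
        have h4 := d_nonneg (Γ := Γ) s t
        have h5 := d_nonneg (Γ := Γ) g h
        positivity
    have h2 := ih (pre ++ [evp e.1 e.2.2]) (by
      rw [List.length_append, List.length_singleton]
      rw [List.length_cons] at hl
      omega)
    rw [List.append_assoc, List.append_assoc, List.singleton_append, List.singleton_append] at h2
    have h3 := abs_sub_le (S.F (pre ++ evp e.1 e.2.1 :: q.map fun e => evp e.1 e.2.1) s t)
      (S.F (pre ++ evp e.1 e.2.2 :: q.map fun e => evp e.1 e.2.1) s t)
      (S.F (pre ++ evp e.1 e.2.2 :: q.map fun e => evp e.1 e.2.2) s t)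
    rw [mul_add]
    linarith

/-- change of the ends of the path -/
private theorem F_path {N : ℕ} (S : Sys Γ N) (X : List (GP G)) (hX : X.length = N) (s t s' t' : G) :
    |S.F X s t - S.F X s' t'| ≤ S.C * Γ.d s s' + S.C * Γ.d t t' := by
  have e1 := S.F_add X s s' t hX
  have e2 := S.F_add X s' t' t hX
  have h3 := S.F_growth X s s' hX
  have h4 := S.F_growth X t' t hX
  rw [d_comm t' t] at h4
  rw [abs_le] at h3 h4 ⊢
  constructor <;> linarith

/-- change of boundary points with the same end -/
private theorem F_ends {N : ℕ} (S : Sys Γ N) (s t : G) (L L' : List (GP G))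
    (h : List.Forall₂ (fun p p' => p = p' ∨ ∃ g g', p = GP.bdp g ∧ p' = GP.bdp g' ∧
      Γ.SameEnd g g') L L') :
    ∀ pre : List (GP G), pre.length + L.length = N → S.F (pre ++ L) s t = S.F (pre ++ L') s t := by
  induction h with
  | nil => intro pre _; rfl
  | @cons p p' L L' hp hL ih =>
    intro pre hl
    have h1 : S.F (pre ++ p :: L) s t = S.F (pre ++ p' :: L) s t := by
      rcases hp with rfl | ⟨g, g', rfl, rfl, hg⟩
      · rfl
      · refine S.F_same pre L g g' s t ?_ hg
        rw [List.length_append, List.length_cons]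
        rw [List.length_cons] at hl
        exact hl
    have h2 := ih (pre ++ [p']) (by
      rw [List.length_append, List.length_singleton]
      rw [List.length_cons] at hl
      omega)
    rw [List.append_assoc, List.append_assoc, List.singleton_append, List.singleton_append] at h2
    rw [h1, h2]

theorem d_self (x : G) : Γ.d x x = 0 := by
  unfold R1.d
  rw [inv_mul_cancel, Γ.rho_one]

theorem d_cont [IsTopologicalGroup G] : Continuous fun p : G × G => Γ.d p.1 p.2 := by
  unfold R1.d
  exact Γ.rho_cont.comp (continuous_fst.inv.mul continuous_snd)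

theorem F_cont [IsTopologicalGroup G] {N : ℕ} (S : Sys Γ N) (σ : Fin N → Option (GP G)) :
    Continuous fun p : (Fin N → G) × G × G =>
      S.F (List.ofFn fun i => evp (σ i) (p.1 i)) p.2.1 p.2.2 := by
  rw [continuous_iff_continuousAt]
  intro p₀
  have hd : ∀ (f : (Fin N → G) × G × G → G), Continuous f → Continuous fun p => Γ.d (f p) (f p₀) :=
    fun f hf => d_cont.comp (hf.prodMk continuous_const)
  have hlim : Tendsto (fun p : (Fin N → G) × G × G =>
      S.C * Γ.d p.2.1 p.2.2 * ∑ i, Γ.d (p.1 i) (p₀.1 i) +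
        (S.C * Γ.d p.2.1 p₀.2.1 + S.C * Γ.d p.2.2 p₀.2.2)) (𝓝 p₀) (𝓝 0) := by
    have hc : Continuous fun p : (Fin N → G) × G × G =>
        S.C * Γ.d p.2.1 p.2.2 * ∑ i, Γ.d (p.1 i) (p₀.1 i) +
          (S.C * Γ.d p.2.1 p₀.2.1 + S.C * Γ.d p.2.2 p₀.2.2) := by
      refine Continuous.add (Continuous.mul (continuous_const.mul ?_) ?_)
        (Continuous.add (continuous_const.mul ?_) (continuous_const.mul ?_))
      · exact d_cont.comp (continuous_fst.comp continuous_snd |>.prodMk
          (continuous_snd.comp continuous_snd))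
      · exact continuous_finsetSum _ fun i _ =>
          d_cont.comp (((continuous_apply i).comp continuous_fst).prodMk continuous_const)
      · exact d_cont.comp ((continuous_fst.comp continuous_snd).prodMk continuous_const)
      · exact d_cont.comp ((continuous_snd.comp continuous_snd).prodMk continuous_const)
    have h0 := hc.tendsto p₀
    simp only [d_self, Finset.sum_const_zero, mul_zero, add_zero] at h0
    exact h0
  have hb : ∀ p : (Fin N → G) × G × G,
      ‖S.F (List.ofFn fun i => evp (σ i) (p.1 i)) p.2.1 p.2.2 -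
        S.F (List.ofFn fun i => evp (σ i) (p₀.1 i)) p₀.2.1 p₀.2.2‖ ≤
      S.C * Γ.d p.2.1 p.2.2 * ∑ i, Γ.d (p.1 i) (p₀.1 i) +
        (S.C * Γ.d p.2.1 p₀.2.1 + S.C * Γ.d p.2.2 p₀.2.2) := by
    intro p
    have h1 := F_move S p.2.1 p.2.2 (List.ofFn fun i => (σ i, p.1 i, p₀.1 i)) [] (by
      rw [List.length_nil, List.length_ofFn, zero_add])
    rw [List.map_ofFn, List.map_ofFn, List.map_ofFn, List.nil_append, List.nil_append,
      List.sum_ofFn] at h1
    have h2 := F_path S (List.ofFn fun i => evp (σ i) (p₀.1 i)) List.length_ofFn p.2.1 p.2.2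
      p₀.2.1 p₀.2.2
    have h3 := abs_sub_le (S.F (List.ofFn fun i => evp (σ i) (p.1 i)) p.2.1 p.2.2)
      (S.F (List.ofFn fun i => evp (σ i) (p₀.1 i)) p.2.1 p.2.2)
      (S.F (List.ofFn fun i => evp (σ i) (p₀.1 i)) p₀.2.1 p₀.2.2)
    rw [Real.norm_eq_abs]
    refine h3.trans (add_le_add ?_ h2)
    exact h1
  have h4 := squeeze_zero_norm hb hlim
  exact tendsto_sub_nhds_zero_iff.1 h4

end

variable {G : Type} [Group G] [TopologicalSpace G] [IsTopologicalGroup G] [T2Space G]
  [SecondCountableTopology G] [MeasurableSpace G] [BorelSpace G] {Γ : R1 G}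

theorem measurable_nu_mod (Γ : R1 G) : Measurable (mod Γ).nu := by
  classical
  have hs : IsClosed {g : G | Γ.gam g = 0} := isClosed_singleton.preimage Γ.gam_cont
  have h1 : Measurable (({g : G | Γ.gam g = 0}ᶜ).piecewise Γ.nu (fun _ => (1 : G))) := by
    refine ContinuousOn.measurable_piecewise ?_ continuousOn_const hs.isOpen_compl.measurableSet
    exact Γ.nu_cont
  have e : (mod Γ).nu = ({g : G | Γ.gam g = 0}ᶜ).piecewise Γ.nu (fun _ => (1 : G)) := by
    funext g
    by_cases h : Γ.gam g = 0
    · rw [Set.piecewise_eq_of_notMem _ _ _ (by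
        intro h'
        exact h' h)]
      exact if_pos h
    · rw [Set.piecewise_eq_of_mem _ _ _ h]
      exact if_neg h
  rw [e]
  exact h1

/-- constant points and measurable interior points -/
private theorem meas_evp {N : ℕ} (S : Sys Γ N) {Y : Type} [MeasurableSpace Y]
    (σ : List (Option (GP G) × (Y → G))) (hσ : σ.length = N) (hm : ∀ e ∈ σ, Measurable e.2)
    (s t : Y → G) (hs : Measurable s) (ht : Measurable t) :
    Measurable fun y => S.F (σ.map fun e => evp e.1 (e.2 y)) (s y) (t y) := by
  subst hσ
  have h1 : Measurable fun y => ((fun i => (σ.get i).2 y : Fin σ.length → G), s y, t y) := by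
    refine Measurable.prodMk ?_ (hs.prodMk ht)
    exact measurable_pi_lambda _ fun i => hm _ (List.get_mem σ i)
  have h2 := (F_cont S fun i : Fin σ.length => (σ.get i).1).measurable.comp h1
  have e : ∀ y, (List.ofFn fun i : Fin σ.length => evp (σ.get i).1 ((σ.get i).2 y)) =
      σ.map fun e => evp e.1 (e.2 y) := by
    intro y
    conv_rhs => rw [← List.ofFn_get σ]
    rw [List.map_ofFn]
    rfl
  have e' : (fun y => S.F (σ.map fun e => evp e.1 (e.2 y)) (s y) (t y)) =
      (fun p : (Fin σ.length → G) × G × G =>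
        S.F (List.ofFn fun i => evp (σ.get i).1 (p.1 i)) p.2.1 p.2.2) ∘
      fun y => ((fun i => (σ.get i).2 y : Fin σ.length → G), s y, t y) := by
    funext y
    show S.F (σ.map fun e => evp e.1 (e.2 y)) (s y) (t y) = S.F (List.ofFn fun i : Fin σ.length =>
      evp (σ.get i).1 ((σ.get i).2 y)) (s y) (t y)
    rw [e y]
  rw [e']
  exact h2

/-- the boundary points have the ends of `m y * g'` with constants `g'` -/
private theorem meas_part {N : ℕ} (S : Sys Γ N) {Y : Type} [MeasurableSpace Y]
    (π : List (Bool × (Y → G))) (hπ : π.length = N) (hm : ∀ e ∈ π, Measurable e.2)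
    (s t m : Y → G) (hs : Measurable s) (ht : Measurable t) (hmm : Measurable m)
    (o : Bool × (Y → G) → G) :
    ∃ ψ : Y → ℝ, Measurable ψ ∧ ∀ y, (∀ e ∈ π, e.1 = true → Γ.SameEnd (e.2 y) (m y * o e)) →
      S.F (pt π y) (s y) (t y) = ψ y := by
  refine ⟨fun y => S.F ((π.map fun e => ((if e.1 then some (GP.bdp (o e)) else none :
      Option (GP G)), fun y => (m y)⁻¹ * e.2 y)).map fun e => evp e.1 (e.2 y))
      ((m y)⁻¹ * s y) ((m y)⁻¹ * t y), ?_, ?_⟩
  · refine meas_evp S _ ?_ ?_ _ _ (hmm.inv.mul hs) (hmm.inv.mul ht)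
    · rw [List.length_map, hπ]
    · intro e he
      obtain ⟨e', he', rfl⟩ := List.mem_map.1 he
      exact hmm.inv.mul (hm e' he')
  · intro y hy
    have h1 : S.F (pt π y) (s y) (t y) = S.F (π.map fun e => if e.1 then GP.bdp (m y * o e)
        else GP.int (e.2 y)) (s y) (t y) := by
      refine F_ends S (s y) (t y) (pt π y) _ ?_ [] ?_
      · unfold pt
        rw [List.forall₂_map_left_iff, List.forall₂_map_right_iff, List.forall₂_same]
        intro e he
        by_cases h : e.1 = true
        · rw [if_pos h, if_pos h]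
          exact Or.inr ⟨_, _, rfl, rfl, hy e he h⟩
        · rw [if_neg h, if_neg h]
          exact Or.inl rfl
      · unfold pt
        rw [List.length_nil, List.length_map, hπ, zero_add]
    rw [h1, ← S.F_inv (m y)⁻¹ _ (s y) (t y), List.map_map]
    show _ = S.F (List.map _ (List.map _ π)) _ _
    rw [List.map_map]
    congr 1
    refine List.map_congr_left fun e he => ?_
    show (m y)⁻¹ • (if e.1 then GP.bdp (m y * o e) else GP.int (e.2 y)) =
      evp (if e.1 then some (GP.bdp (o e)) else none) ((m y)⁻¹ * e.2 y)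
    by_cases h : e.1 = true
    · rw [if_pos h, if_pos h]
      show GP.bdp ((m y)⁻¹ * (m y * o e)) = GP.bdp (o e)
      rw [inv_mul_cancel_left]
    · rw [if_neg h, if_neg h]
      rfl

/-- at most the two boundary points `a`, `b` -/
private theorem meas_two (hν : Measurable Γ.nu) {N : ℕ} (S : Sys Γ N) {Y : Type}
    [MeasurableSpace Y] (π : List (Bool × (Y → G))) (hπ : π.length = N)
    (hm : ∀ e ∈ π, Measurable e.2) (a b : Y → G) (ha : Measurable a) (hb : Measurable b)
    (hab : ∀ e ∈ π, e.1 = true → e.2 = a ∨ e.2 = b)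
    (s t : Y → G) (hs : Measurable s) (ht : Measurable t) :
    Measurable fun y => S.F (pt π y) (s y) (t y) := by
  classical
  have hT : MeasurableSet {y | Γ.gam ((a y)⁻¹ * b y) = 0} :=
    (Γ.gam_cont.measurable.comp (ha.inv.mul hb)) (measurableSet_singleton 0)
  obtain ⟨ψ₁, h1, h1'⟩ := meas_part S π hπ hm s t a hs ht ha (fun _ => 1)
  obtain ⟨ψ₂, h2, h2'⟩ := meas_part S π hπ hm s t (fun y => Γ.line (a y) (b y)) hs ht
    (ha.mul (hν.comp (ha.inv.mul hb))) (fun e => if e.2 = a then 1 else Γ.flip)
  have e : (fun y => S.F (pt π y) (s y) (t y)) =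
      {y | Γ.gam ((a y)⁻¹ * b y) = 0}.piecewise ψ₁ ψ₂ := by
    funext y
    by_cases h : Γ.gam ((a y)⁻¹ * b y) = 0
    · rw [Set.piecewise_eq_of_mem _ _ _ (show y ∈ {y | Γ.gam ((a y)⁻¹ * b y) = 0} from h)]
      refine h1' y fun e he h' => ?_
      rw [mul_one]
      rcases hab e he h' with h3 | h3
      · rw [h3]
        unfold R1.SameEnd
        rw [inv_mul_cancel, Γ.gam_one]
      · rw [h3]
        unfold R1.SameEnd
        rw [← Γ.gam_inv, mul_inv_rev, inv_inv]
        exact h
    · rw [Set.piecewise_eq_of_notMem _ _ _ (show y ∉ {y | Γ.gam ((a y)⁻¹ * b y) = 0} from h)]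
      refine h2' y fun e he h' => ?_
      by_cases h4 : e.2 = a
      · rw [if_pos h4, mul_one, h4]
        unfold R1.SameEnd R1.line
        rw [inv_mul_cancel_left, ← mul_one (Γ.nu _), Γ.gam_U _ (Γ.nu_mem _), Γ.gam_one]
      · rw [if_neg h4]
        have h3 := (hab e he h').resolve_left h4
        rw [h3]
        unfold R1.SameEnd R1.line
        have h5 := Γ.nu_end _ h
        rw [← Γ.gam_inv] at h5
        have e1 : ((Γ.nu ((a y)⁻¹ * b y) * Γ.flip)⁻¹ * ((a y)⁻¹ * b y))⁻¹ =
            (b y)⁻¹ * (a y * Γ.nu ((a y)⁻¹ * b y) * Γ.flip) := by group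
        rwa [e1] at h5
  rw [e]
  exact h1.piecewise hT h2

/-- MEAS-SYS: `F` is measurable for patterns with at most two boundary points -/
theorem MF_F (hν : Measurable Γ.nu) {N : ℕ} (S : Sys Γ N) {Z : Type} [MeasurableSpace Z]
    (s t : Z → G) (hs : Measurable s) (ht : Measurable t) :
    MF 2 N (fun z X => S.F X (s z) (t z)) := by
  classical
  intro Y _ r bs π hr hbs hπ hmem
  have hm : ∀ e ∈ π, Measurable e.2 := fun e he => (hmem e he).1
  have key : ∃ a b : Y → G, Measurable a ∧ Measurable b ∧
      ∀ e ∈ π, e.1 = true → e.2 = a ∨ e.2 = b := by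
    have h1 : ∀ e ∈ π, e.1 = true → e.2 ∈ bs.filter (fun f => decide (Measurable f)) := by
      intro e he h
      rw [List.mem_filter]
      exact ⟨(hmem e he).2 h, by simpa using (hmem e he).1⟩
    have h2 : (bs.filter (fun f => decide (Measurable f))).length ≤ 2 :=
      (List.length_filter_le _ _).trans hbs
    have h3 : ∀ f ∈ bs.filter (fun f => decide (Measurable f)), Measurable f := by
      intro f hf
      simpa using (List.mem_filter.1 hf).2
    generalize bs.filter (fun f => decide (Measurable f)) = l at h1 h2 h3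
    match l, h1, h2, h3 with
    | [], h1, _, _ =>
      exact ⟨fun _ => 1, fun _ => 1, measurable_const, measurable_const, fun e he h =>
        absurd (h1 e he h) (by simp)⟩
    | [a], h1, _, h3 =>
      exact ⟨a, a, h3 a (by simp), h3 a (by simp), fun e he h => Or.inl (by
        simpa using h1 e he h)⟩
    | [a, b], h1, _, h3 =>
      exact ⟨a, b, h3 a (by simp), h3 b (by simp), fun e he h => by
        simpa using h1 e he h⟩
    | a :: b :: c :: l, _, h2, _ =>
      simp at h2
  obtain ⟨a, b, ha, hb, hab⟩ := key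
  exact meas_two hν S π hπ hm a b ha hb hab _ _ (hs.comp hr) (ht.comp hr)

/-- MEAS-NECK2 -/
theorem exists_neck2_meas (hν : Measurable Γ.nu) (hG : NeckGeo Γ) (S : Sys Γ 2) :
    ∃ K : Neck S, NeckMeas K := by
  classical
  obtain ⟨K, hK⟩ := neck2 S hG
  refine ⟨K, ?_⟩
  intro Z _ n s t A C hn hs ht hl hC
  rw [hK]
  obtain ⟨c, rfl⟩ := List.length_eq_one_iff.1 (by omega : C.length = 1)
  obtain ⟨hc, hcA⟩ := hC c (by simp)
  have hF := MF_F hν S s t hs ht
  have h1 : Measurable fun z => uu S (c z) (s z) (t z) :=
    hF Z id [c] [(false, c), (true, c)] measurable_id (by simp) rfl (by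
      intro e he
      simp only [List.mem_cons, List.not_mem_nil, or_false] at he
      rcases he with rfl | rfl
      · exact ⟨hc, by simp⟩
      · exact ⟨hc, by simp⟩)
  have h2 : Measurable fun z => ends S (n z) (s z) (t z) :=
    hF Z id [n, fun z => n z * Γ.flip] [(true, n), (true, fun z => n z * Γ.flip)] measurable_id
      (by simp) rfl (by
      intro e he
      simp only [List.mem_cons, List.not_mem_nil, or_false] at he
      rcases he with rfl | rfl
      · exact ⟨hn, by simp⟩
      · exact ⟨hn.mul_const _, by simp⟩)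
  have h3 : Measurable fun z => sg (A z) (c z) := by
    unfold sg
    exact Measurable.ite hcA measurable_const measurable_const
  exact h1.neg.add (h3.mul h2)

end Pool.Agent.Helper59.BR
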