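import Pool.Agent.Helper59.BR.MeasDefs

/-!
# Project BR, block MEAS: statements (never imported)
-/

set_option autoImplicit false

open MeasureTheory

namespace Pool.Agent.Helper59.BR

open Pool.Agent.Helper11.BC (dl)
open Pool.Agent.Helper11.BR

variable {G : Type} [Group G] [TopologicalSpace G] [IsTopologicalGroup G] [T2Space G]
  [SecondCountableTopology G] [MeasurableSpace G] [BorelSpace G] {Γ : R1 G}

/-- MEAS-NU (helper59) -/
theorem measurable_nu_mod (Γ : R1 G) : Measurable (mod Γ).nu := by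
  sorry

/-- MEAS-SYS (helper59): `F` is measurable for patterns with at most two boundary points -/
theorem MF_F (hν : Measurable Γ.nu) {N : ℕ} (S : Sys Γ N) {Z : Type} [MeasurableSpace Z]
    (s t : Z → G) (hs : Measurable s) (ht : Measurable t) :
    MF 2 N (fun z X => S.F X (s z) (t z)) := by
  sorry

/-- MEAS-NECK2 (helper59) -/
theorem exists_neck2_meas (hν : Measurable Γ.nu) (hG : NeckGeo Γ) (S : Sys Γ 2) :
    ∃ K : Neck S, NeckMeas K := by
  sorry

/-- MEAS-NECK (helper59, after the port of helper14) -/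
theorem exists_neck_meas (hν : Measurable Γ.nu) (hG : NeckGeo Γ) {N : ℕ} (hN : 3 ≤ N)
    (S : Sys Γ N) : ∃ K : Neck S, NeckMeas K := by
  sorry

/-- MEAS-GEO (helper53): the data constructed by GEO-G are measurable -/
theorem globGeo_meas (hν : Measurable Γ.nu) : ∃ g : GlobGeo Γ, GlobMeas g := by
  sorry

/-- MEAS-GLOB (helper24): the primitive is measurable (on interior points `f0` and `F` are
continuous; `gt` by `NeckMeas`) -/
theorem main_of_neck_meas {g : GlobGeo Γ} (hg : GlobMeas g) {N : ℕ} (hN : 2 ≤ N) (S : Sys Γ N)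
    {K : Neck S} (hK : NeckMeas K) :
    ∃ (ψ : List G → ℝ) (M : ℝ), ML ψ ∧
      (∀ Y, Γ.Generic Y → Y.length = N + 1 → |ψ Y| ≤ M) ∧
      (∀ (g : G) Y, ψ (Y.map (g * ·)) = ψ Y) ∧
      ∀ W, Γ.Generic W → W.length = N + 2 → dl ψ W = S.fW (W.map GP.int) := by
  sorry

end Pool.Agent.Helper59.BR
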